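import Pool.Agent.K4H90.Seg.Main

/-!
# Drawing a plane graph with its vertices on given segments, without obstacles

The restriction of the problem to inputs without obstacles is `∃ℝ`-hard: every language in `∃ℝ` has
a polynomial-time many-one reduction to it.  The instances produced are connected plane graphs; all
their segments can be taken open (`cl = false`), and all of them can be taken closed (`cl = true`).
-/

namespace Pool.Agent.Results.MP_23bbe6_lc.NoObstacles

open Pool.Agent.K4H90.SegDraw

/-- **Drawing a plane graph with its vertices on given segments, without obstacles, is
`∃ℝ`-hard**, even if all segments are open (`cl = false`), and even if all segments are closed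
(`cl = true`). -/
theorem result (cl : Bool) :
    ERHardOn
      (fun I : Inst => I.PlaneGraph ∧ I.obstacles = [] ∧ ∀ e ∈ I.verts, e.2.1.closed = cl)
      Inst.Solvable :=
  hard cl

end Pool.Agent.Results.MP_23bbe6_lc.NoObstacles
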